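import Pool.Agent.N208.UR.Grp
import Pool.Agent.R917.DT.Stb

set_option autoImplicit false
set_option linter.unusedSectionVars false
set_option linter.unusedSimpArgs false

/-!
# The unipotent part of the Lie algebra is normalized by the Hodge structure
-/

open Module Function TensorProduct Matrix

noncomputable section

namespace Pool.Agent.N208.UR

open Pool.Agent.Y102 Pool.Agent.W516.DR Pool.Agent.H204R3.GP Pool.Agent.W516.KC
  Pool.Agent.H204R3.SP Pool.Agent.TH119.MX Pool.Agent.R917.OM Pool.Agent.R917.BX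
  Pool.Agent.R917

section tuples

variable {g : ℕ} {A : AbVarG g} {n s : ℕ} {𝔤 : Submodule ℚ (Tup A.toAbVar n s)} {d : Dt g n s}

/-- The unipotent part is stable under the Lie algebra of the Hodge group. -/
theorem uu_NA (h : Lg 𝔤 d) (u : UD 𝔤 d) {X : Module.End ℚ A.H1} (hX : X ∈ A.NA)
    {z : (Fin n ⊕ Fin s) → A.H1} (hz : z ∈ uu 𝔤) : (fun p => X (z p)) ∈ uu 𝔤 := by
  rw [← u.π0] at hz ⊢
  funext p
  rw [u.fπ]
  have h1 : ∀ q, u.f p q (X (z q)) = X (u.f p q (z q)) := by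
    intro q
    have h2 := h.full.comm (u.f p q) (u.fc p q) X hX
    exact (congrArg (fun T : Module.End ℚ A.H1 => T (z q)) h2).symm
  simp only [h1]
  rw [← map_sum, ← u.fπ, hz]
  exact map_zero X

/-- The brackets of the complex structure with the elements which act by scalars on the abelian
part. -/
theorem br_tJ (h : Lg 𝔤 d) (u : UD 𝔤 d) {L : Tup A.toAbVar n s} (hL : L ∈ 𝔤) (hL1 : L.1 = 0)
    (lam : ℂ →ₗ[ℚ] ℚ) : br (tJ A.toAbVar d lam) L ∈ 𝔤 := by
  have hJ : A.cmpE (fr lam) AbVar.JJ ∈ A.NA := A.MA_le_NA (A.J_mem (fr lam))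
  have hz1 : (cj u.w L).2.2.1 ∈ uu 𝔤 := u.levi L hL
  have hz2 : (tJ A.toAbVar (fd u.w d) lam).2.2.1 ∈ uu 𝔤 :=
    u.cmp_mem (fr lam) (x := Complex.I • (pt d - Pe u.w)) (u.W.smul_mem _ u.pt_mem)
  have h1 : br (tJ A.toAbVar (fd u.w d) lam) (cj u.w L) ∈ 𝔤.map (cj u.w) := by
    refine mem_of_parts' (map_Lg u.w h) (u.hBmap h) (L := 0) (Submodule.zero_mem _) ?_ rfl
      ?_ fun φ hφ ρ hρ => ?_
    · change (tJ A.toAbVar (fd u.w d) lam).1 * L.1 - L.1 * (tJ A.toAbVar (fd u.w d) lam).1 = 0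
      rw [hL1, mul_zero, zero_mul, sub_zero]
    · rw [uu_map]
      have h2 : (fun p => (br (tJ A.toAbVar (fd u.w d) lam) (cj u.w L)).2.2.1 p -
          (0 : Tup A.toAbVar n s).2.2.1 p) =
          (fun p => A.cmpE (fr lam) AbVar.JJ ((cj u.w L).2.2.1 p)) -
            L.2.1 • (tJ A.toAbVar (fd u.w d) lam).2.2.1 := by
        funext p
        change (op (tJ A.toAbVar (fd u.w d) lam) ((cj u.w L).2.2.1 p) -
          op (cj u.w L) ((tJ A.toAbVar (fd u.w d) lam).2.2.1 p)) - 0 = _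
        rw [sub_zero, op_apply, op_apply]
        change (A.cmpE (fr lam) AbVar.JJ ((cj u.w L).2.2.1 p) + (0 : ℚ) • (cj u.w L).2.2.1 p) -
          (L.1 ((tJ A.toAbVar (fd u.w d) lam).2.2.1 p) +
            L.2.1 • (tJ A.toAbVar (fd u.w d) lam).2.2.1 p) = _
        rw [hL1, LinearMap.zero_apply, zero_smul, add_zero, zero_add]
        rfl
      rw [h2]
      exact (uu 𝔤).sub_mem (uu_NA h u hJ hz1) ((uu 𝔤).smul_mem _ hz2)
    · have hφ' : ∀ t ∈ tt 𝔤, φ t = 0 := fun t ht => hφ t (by rw [tt_map]; exact ht)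
      have e1 : (br (tJ A.toAbVar (fd u.w d) lam) (cj u.w L)).2.2.2 =
          bb (tJ A.toAbVar (fd u.w d) lam).2.2.1 (cj u.w L).2.2.1 -
            (2 * L.2.1) • (tJ A.toAbVar (fd u.w d) lam).2.2.2 := by
        funext i l
        change A.om ((tJ A.toAbVar (fd u.w d) lam).2.2.1 (Sum.inr l))
            ((cj u.w L).2.2.1 (Sum.inl i)) -
          A.om ((cj u.w L).2.2.1 (Sum.inr l))
            ((tJ A.toAbVar (fd u.w d) lam).2.2.1 (Sum.inl i)) +
          2 * (0 : ℚ) * (cj u.w L).2.2.2 i l -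
            2 * L.2.1 * (tJ A.toAbVar (fd u.w d) lam).2.2.2 i l = _
        rw [mul_zero, zero_mul, add_zero]
        rfl
      have e2 : φ (tJ A.toAbVar (fd u.w d) lam).2.2.2 = 0 := by
        rw [phi_eq]
        have hm : Sym 𝔤 (mC φ) := sym_of_phi h hφ'
        have h6 := u.sum_E_I hm u.pt_mem
        have h7 := congrArg lam h6
        rw [map_zero, map_sum] at h7
        rw [← h7]
        refine Finset.sum_congr rfl fun i _ => ?_
        rw [map_sum]
        refine Finset.sum_congr rfl fun l _ => ?_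
        unfold mC
        rw [← Rat.smul_def, map_smul, smul_eq_mul]
        rfl
      have e3 : (br (tJ A.toAbVar (fd u.w d) lam) (cj u.w L)).2.1 = 0 := rfl
      rw [e1, map_sub, map_smul, e2, hφ' _ (bb_mem h hz2 hz1), smul_zero, sub_zero, e3, mul_zero,
        zero_mul]
  have hsk : ∀ u v, A.om ((tJ A.toAbVar d lam).1 u) v + A.om u ((tJ A.toAbVar d lam).1 v) = 0 :=
    A.NA_skew hJ
  rw [← cj_tJ, ← cj_br u.w hsk (A.NA_skew (h.na L hL))] at h1
  obtain ⟨L', hL', h2⟩ := h1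
  rw [← cj_inj u.w h2]
  exact hL'

end tuples

section levels

variable {g n s : ℕ}

/-- the weights, up to the sign -/
def lev (g n s : ℕ) : RI g n s → ℕ := Sum.elim (fun _ => 1) (Sum.elim (fun _ => 2) (fun _ => 0))

theorem lev_le (r : RI g n s) : lev g n s r ≤ 2 := by
  rcases r with j | l | i <;> simp [lev]

variable {A : AbVar g}

theorem mt_Fl (L : Tup A n s) (h1 : L.1 = 0) : OM.mt L - (L.2.1 : ℂ) • DD (lev g n s) ∈
    Fl (lev g n s) 1 := by
  intro r r' h
  rcases r with j | l | i <;> rcases r' with j' | l' | i' <;>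
    simp only [lev, Sum.elim_inl, Sum.elim_inr] at h <;>
    simp only [Matrix.sub_apply, Matrix.smul_apply, DD, OM.mt, mtQ, Matrix.map_apply, Matrix.of_apply,
      Sum.elim_inl, Sum.elim_inr, Matrix.diagonal_apply, lev, smul_eq_mul, map_zero]
  · rw [op_apply, h1, LinearMap.zero_apply, zero_add, Pi.smul_apply]
    unfold eb
    by_cases hjc : j = j'
    · subst hjc
      simp
    · rw [Pi.single_eq_of_ne (Ne.symm hjc), if_neg (by simpa using hjc)]
      simp
  · omega
  · simp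
  · simp
  · by_cases hl : l = l'
    · subst hl
      simp
      ring
    · rw [if_neg hl, if_neg (by simpa using hl)]
      simp
  · simp
  · omega
  · omega
  · by_cases hl : i = i'
    · subst hl
      simp
    · rw [if_neg (by simpa using hl)]
      simp

/-- The rational matrices which raise the level are given by tuples. -/
theorem exists_tup {N : Matrix (RI g n s) (RI g n s) ℚ} (hN : cqm N ∈ Fl (lev g n s) 1) :
    ∃ L : Tup A n s, L.1 = 0 ∧ L.2.1 = 0 ∧ mtQ L = N := by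
  have h1 : ∀ r r', lev g n s r' < lev g n s r + 1 → N r r' = 0 := by
    intro r r' h
    have h2 := hN r r' h
    rw [cqm_apply] at h2
    exact_mod_cast h2
  choose y hy using fun l : Fin s => A.om_surj
    (f := Fintype.linearCombination ℚ (fun j : Fin (2 * g) => N (Sum.inl j) (Sum.inr (Sum.inl l))))
  refine ⟨(0, 0, Sum.elim (fun i j => N (Sum.inr (Sum.inr i)) (Sum.inl j)) y,
    fun i l => N (Sum.inr (Sum.inr i)) (Sum.inr (Sum.inl l))), rfl, rfl, ?_⟩
  ext r r'
  rcases r with j | l | i <;> rcases r' with j' | l' | i' <;>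
    simp only [mtQ, Matrix.of_apply, Sum.elim_inl, Sum.elim_inr]
  · rw [h1 _ _ (by simp [lev])]
    simp [op]
  · rw [hy]
    unfold eb
    rw [Fintype.linearCombination_apply_single, one_smul]
  · rw [h1 _ _ (by simp [lev])]
  · rw [h1 _ _ (by simp [lev])]
  · rw [h1 _ _ (by simp [lev])]
    simp
  · rw [h1 _ _ (by simp [lev])]
  · rw [h1 _ _ (by simp [lev])]

end levels

section gen

variable {B : Type} [Fintype B] [DecidableEq B]

theorem mul_cqm_map (X : Matrix B B ℂ) (N : Matrix B B ℚ) (lam : ℂ →ₗ[ℚ] ℚ) :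
    (X * cqm N).map lam = X.map lam * N := by
  ext i j
  rw [Matrix.map_apply, Matrix.mul_apply, Matrix.mul_apply, map_sum]
  refine Finset.sum_congr rfl fun k _ => ?_
  rw [cqm_apply, mul_comm, ← Rat.smul_def, map_smul, smul_eq_mul, Matrix.map_apply, mul_comm]

theorem cqm_mul_map (X : Matrix B B ℂ) (N : Matrix B B ℚ) (lam : ℂ →ₗ[ℚ] ℚ) :
    (cqm N * X).map lam = N * X.map lam := by
  ext i j
  rw [Matrix.map_apply, Matrix.mul_apply, Matrix.mul_apply, map_sum]
  refine Finset.sum_congr rfl fun k _ => ?_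
  rw [cqm_apply, ← Rat.smul_def, map_smul, smul_eq_mul, Matrix.map_apply]

theorem cqm_mul (M N : Matrix B B ℚ) : cqm (M * N) = cqm M * cqm N := by
  unfold cqm
  rw [Matrix.map_mul]

theorem cqm_sub (M N : Matrix B B ℚ) : cqm (M - N) = cqm M - cqm N := by
  unfold cqm
  rw [Matrix.map_sub _ (map_sub _)]

section norms

attribute [local instance] Matrix.linftyOpNormedRing Matrix.linftyOpNormedAlgebra

theorem exp_Fl {lev : B → ℕ} {X : Matrix B B ℂ} (hX : X ∈ Fl lev 0) :
    NormedSpace.exp X ∈ Fl lev 0 := by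
  intro r r' h
  have hpow : ∀ k : ℕ, X ^ k ∈ Fl lev 0 := by
    intro k
    induction k with
    | zero =>
      rw [pow_zero]
      exact one_Fl
    | succ k ih =>
      rw [pow_succ]
      exact Fl_mul ih hX
  have h1 := NormedSpace.exp_series_hasSum_exp' (𝕂 := ℂ) X
  have h2 := (LinearMap.toContinuousLinearMap (Matrix.entryLinearMap ℂ ℂ r r')).hasSum h1
  have h3 : (fun k : ℕ => (LinearMap.toContinuousLinearMap (Matrix.entryLinearMap ℂ ℂ r r'))
      (((k.factorial : ℂ)⁻¹) • X ^ k)) = fun _ => (0 : ℂ) := by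
    funext k
    change ((((k.factorial : ℂ)⁻¹) • X ^ k) : Matrix B B ℂ) r r' = 0
    rw [Matrix.smul_apply, hpow k r r' h, smul_zero]
  rw [h3] at h2
  exact h2.unique hasSum_zero

theorem pow_sub_Fl {lev : B → ℕ} {X Y : Matrix B B ℂ} (hX : X ∈ Fl lev 0)
    (hXY : X - Y ∈ Fl lev 1) (k : ℕ) : X ^ k - Y ^ k ∈ Fl lev 1 := by
  have hY : Y ∈ Fl lev 0 := by
    have h1 := Submodule.sub_mem _ hX (Fl_mono (Nat.zero_le 1) hXY)
    rwa [sub_sub_cancel] at h1
  have hpow : ∀ k : ℕ, X ^ k ∈ Fl lev 0 := by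
    intro k
    induction k with
    | zero =>
      rw [pow_zero]
      exact one_Fl
    | succ k ih =>
      rw [pow_succ]
      exact Fl_mul ih hX
  induction k with
  | zero =>
    rw [pow_zero, pow_zero, sub_self]
    exact Submodule.zero_mem _
  | succ k ih =>
    have h1 : X ^ (k + 1) - Y ^ (k + 1) = X ^ k * (X - Y) + (X ^ k - Y ^ k) * Y := by
      rw [pow_succ, pow_succ]
      noncomm_ring
    rw [h1]
    have h2 := Fl_mul (hpow k) hXY
    rw [zero_add] at h2
    exact Submodule.add_mem _ h2 (Fl_mul ih hY)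

theorem exp_sub_Fl {lev : B → ℕ} {X Y : Matrix B B ℂ} (hX : X ∈ Fl lev 0)
    (hXY : X - Y ∈ Fl lev 1) : NormedSpace.exp X - NormedSpace.exp Y ∈ Fl lev 1 := by
  intro r r' h
  have h1 := (NormedSpace.exp_series_hasSum_exp' (𝕂 := ℂ) X).sub
    (NormedSpace.exp_series_hasSum_exp' (𝕂 := ℂ) Y)
  have h2 := (LinearMap.toContinuousLinearMap (Matrix.entryLinearMap ℂ ℂ r r')).hasSum h1
  have h3 : (fun k : ℕ => (LinearMap.toContinuousLinearMap (Matrix.entryLinearMap ℂ ℂ r r'))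
      (((k.factorial : ℂ)⁻¹) • X ^ k - ((k.factorial : ℂ)⁻¹) • Y ^ k)) = fun _ => (0 : ℂ) := by
    funext k
    change ((((k.factorial : ℂ)⁻¹) • X ^ k - ((k.factorial : ℂ)⁻¹) • Y ^ k) : Matrix B B ℂ)
      r r' = 0
    rw [← smul_sub, Matrix.smul_apply, pow_sub_Fl hX hXY k r r' h, smul_zero]
  rw [h3] at h2
  exact h2.unique hasSum_zero

/-- The weight cocharacter. -/
theorem exp_weight {lev : B → ℕ} {c : ℂ} (hc : c ≠ 0) {X : Matrix B B ℂ}
    (hX : X - DD lev ∈ Fl lev 1) :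
    NormedSpace.exp (Complex.log c • X) - Matrix.diagonal (fun r => c ^ lev r) ∈ Fl lev 1 := by
  have h0 : DD lev ∈ Fl lev 0 := by
    intro r r' h
    refine Matrix.diagonal_apply_ne _ fun h' => ?_
    subst h'
    omega
  have hX0 : X ∈ Fl lev 0 := by
    have h1 := Submodule.add_mem _ (Fl_mono (Nat.zero_le 1) hX) h0
    rwa [sub_add_cancel] at h1
  have h1 : Complex.log c • X - Complex.log c • DD lev ∈ Fl lev 1 := by
    rw [← smul_sub]
    exact Submodule.smul_mem _ _ hX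
  have h2 := exp_sub_Fl (Submodule.smul_mem _ (Complex.log c) hX0) h1
  have h3 : NormedSpace.exp (Complex.log c • DD lev) =
      Matrix.diagonal (fun r => c ^ lev r) := by
    have h4 : Complex.log c • DD lev = Matrix.diagonal fun r => Complex.log c * (lev r : ℂ) := by
      rw [DD, ← Matrix.diagonal_smul]
      rfl
    rw [h4, Matrix.exp_diagonal]
    congr 1
    funext r
    rw [Pi.coe_exp, ← Complex.exp_eq_exp_ℂ, mul_comm, Complex.exp_nat_mul, Complex.exp_log hc]
  rwa [h3] at h2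

end norms

end gen

section ad

variable {g : ℕ} {A : AbVar g} {n s : ℕ} {H : Set (Matrix (RI g n s) (RI g n s) ℂ)}

theorem cqm_mtQ (L : Tup A n s) : cqm (mtQ L) = OM.mt L := rfl

/-- Tuples in the unipotent part of the Lie algebra. -/
theorem mt_SS {L : Tup A n s} (hL : L ∈ gg A n s H) (h1 : L.1 = 0) (h2 : L.2.1 = 0) :
    OM.mt L ∈ SS (lev g n s) H := by
  refine ⟨?_, hL.2⟩
  have h3 := mt_Fl L h1
  rwa [h2, Rat.cast_zero, zero_smul, sub_zero] at h3

theorem exists_gg {N : Matrix (RI g n s) (RI g n s) ℚ} (hN : N ∈ SQ (lev g n s) H) :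
    ∃ L ∈ gg A n s H, L.1 = 0 ∧ L.2.1 = 0 ∧ mtQ L = N := by
  obtain ⟨L, h1, h2, h3⟩ := exists_tup (A := A) hN.1
  refine ⟨L, ⟨?_, fun k => ?_⟩, h1, h2, h3⟩
  · rw [h1]
    exact A.NA.zero_mem
  · rw [← cqm_mtQ, h3]
    exact hN.2 k

variable {X : Matrix (RI g n s) (RI g n s) ℂ} {T : (ℂ →ₗ[ℚ] ℚ) → Tup A n s}

theorem ad_mt (hT : ∀ lam, OM.mt (T lam) = X.map (lamF lam))
    (hNA : ∀ lam, (T lam).1 ∈ A.NA)
    (hbr : ∀ lam, ∀ L ∈ gg A n s H, L.1 = 0 → br (T lam) L ∈ gg A n s H) {L : Tup A n s}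
    (hL : L ∈ gg A n s H) (hL1 : L.1 = 0) : X * OM.mt L - OM.mt L * X ∈ SS (lev g n s) H := by
  refine SS_of_map fun lam => ?_
  have h1 : cqm ((X * OM.mt L - OM.mt L * X).map lam) = -OM.mt (br (T lam) L) := by
    rw [mt_br (A.NA_skew (hNA lam)) (A.NA_skew hL.1), hT, map_lamF, ← cqm_mtQ,
      Matrix.map_sub _ (map_sub _), mul_cqm_map, cqm_mul_map, cqm_sub, cqm_mul, cqm_mul]
    abel
  rw [h1]
  refine Submodule.neg_mem _ (mt_SS (hbr lam L hL hL1) ?_ rfl)
  change (T lam).1 * L.1 - L.1 * (T lam).1 = 0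
  rw [hL1, mul_zero, zero_mul, sub_zero]

theorem ad_SS (hH : AlgGrp QQ H) (hT : ∀ lam, OM.mt (T lam) = X.map (lamF lam))
    (hNA : ∀ lam, (T lam).1 ∈ A.NA)
    (hbr : ∀ lam, ∀ L ∈ gg A n s H, L.1 = 0 → br (T lam) L ∈ gg A n s H) :
    ∀ M ∈ SS (lev g n s) H, X * M - M * X ∈ SS (lev g n s) H := by
  let C : Matrix (RI g n s) (RI g n s) ℂ →ₗ[ℂ] Matrix (RI g n s) (RI g n s) ℂ :=
    { toFun := fun M => X * M - M * X
      map_add' := fun M N => by
        rw [Matrix.mul_add, Matrix.add_mul]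
        abel
      map_smul' := fun c M => by
        rw [Matrix.mul_smul, Matrix.smul_mul, RingHom.id_apply, smul_sub] }
  have h1 := forall_SS (lev := lev g n s) hH C fun N hN => ?_
  · exact h1
  · obtain ⟨L, hL, h1, -, rfl⟩ := exists_gg (A := A) hN
    exact ad_mt hT hNA hbr hL h1

end ad

section main

variable {g : ℕ} {A : AbVarG g} {n s : ℕ} {d : Dt g n s}
  {H : Set (Matrix (RI g n s) (RI g n s) ℂ)}

theorem XJ_Fl (A : AbVar g) (d : Dt g n s) : XJ A d ∈ Fl (lev g n s) 0 := by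
  intro r r' h
  rcases r with j | l | i <;> rcases r' with j' | l' | i' <;>
    simp only [lev, Sum.elim_inl, Sum.elim_inr] at h <;>
    first | rfl | omega

theorem XW_Fl (A : AbVar g) (d : Dt g n s) : XW A d ∈ Fl (lev g n s) 0 := by
  intro r r' h
  rcases r with j | l | i <;> rcases r' with j' | l' | i' <;>
    simp only [lev, Sum.elim_inl, Sum.elim_inr] at h <;>
    first | rfl | omega

theorem XW_sub (A : AbVar g) (d : Dt g n s) : XW A d - DD (lev g n s) ∈ Fl (lev g n s) 1 := by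
  intro r r' h
  rcases r with j | l | i <;> rcases r' with j' | l' | i' <;>
    simp only [lev, Sum.elim_inl, Sum.elim_inr] at h <;>
    simp only [Matrix.sub_apply, DD, XW, Matrix.of_apply,
      Sum.elim_inl, Sum.elim_inr, Matrix.diagonal_apply, lev]
  · by_cases hjc : j = j'
    · subst hjc
      simp
    · rw [if_neg hjc, if_neg (by simpa using hjc), sub_zero]
  · omega
  · simp
  · simp
  · by_cases hl : l = l'
    · subst hl
      simp
    · rw [if_neg hl, if_neg (by simpa using hl), sub_zero]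
  · simp
  · omega
  · omega
  · by_cases hl : i = i'
    · subst hl
      simp
    · rw [if_neg (by simpa using hl), sub_zero]

/-- **The Hodge structure normalizes the unipotent part of the Lie algebra.** -/
theorem exists_W (hpt : PtM A.toAbVar d H) (hd : Good A d)
    {K₁ : IntermediateField ℚ ℂ} [FiniteDimensional ℚ K₁]
    (hu : ∀ p (m : ℕ), IsRat A.toAbVar K₁ (m • pt d p)) :
    ∃ Wq : Matrix (RI g n s) (RI g n s) ℚ, cqm Wq - DD (lev g n s) ∈ Fl (lev g n s) 1 ∧
      (∀ k, Stab H k (cqm Wq)) ∧ (∀ k, Stab H k (XW A.toAbVar d)) ∧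
      ∀ (a b : ℂ) (x : GL (RI g n s) ℂ), (x : Matrix (RI g n s) (RI g n s) ℂ) =
        NormedSpace.exp (a • XW A.toAbVar d + b • XJ A.toAbVar d) →
          x ∈ KK (lev g n s) H (cqm Wq) := by
  have hLg := gg_Lg hpt
  obtain ⟨u⟩ := main2 hLg hu
  obtain ⟨W, hW, hW1, hW2⟩ := Pool.Agent.R917.DT.weight hpt
  have hWF : OM.mt W - DD (lev g n s) ∈ Fl (lev g n s) 1 := by
    have h1 := mt_Fl W hW1
    rwa [hW2, Rat.cast_one, one_smul] at h1
  have hbJ : ∀ lam, ∀ L ∈ gg A.toAbVar n s H, L.1 = 0 →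
      br (tJ A.toAbVar d lam) L ∈ gg A.toAbVar n s H :=
    fun lam L hL h1 => br_tJ hLg u hL h1 lam
  have hbW : ∀ lam, ∀ L ∈ gg A.toAbVar n s H, L.1 = 0 →
      br (tW A.toAbVar d lam) L ∈ gg A.toAbVar n s H :=
    fun lam L hL _ => hLg.br _ (u.tW_mem hLg hd ⟨W, hW, hW1, hW2⟩ lam) _ hL
  have hJ : ∀ lam, (tJ A.toAbVar d lam).1 ∈ A.NA := fun lam => A.MA_le_NA (A.J_mem (fr lam))
  have hW0 : ∀ lam, (tW A.toAbVar d lam).1 ∈ A.NA := fun lam => A.NA.zero_mem
  refine ⟨mtQ W, hWF, hW.2, fun k => stab_of_comp fun lam => ?_, fun a b x hx => ?_⟩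
  · rw [← mt_tW]
    exact (u.tW_mem hLg hd ⟨W, hW, hW1, hW2⟩ lam).2 k
  · have hab : ∀ M : Matrix (RI g n s) (RI g n s) ℂ,
        (a • XW A.toAbVar d + b • XJ A.toAbVar d) * M -
          M * (a • XW A.toAbVar d + b • XJ A.toAbVar d) =
        a • (XW A.toAbVar d * M - M * XW A.toAbVar d) +
          b • (XJ A.toAbVar d * M - M * XJ A.toAbVar d) := by
      intro M
      rw [Matrix.add_mul, Matrix.mul_add, Matrix.smul_mul, Matrix.smul_mul, Matrix.mul_smul,
        Matrix.mul_smul, smul_sub, smul_sub]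
      abel
    refine exp_KK (exp_Fl (Submodule.add_mem _ (Submodule.smul_mem _ _ (XW_Fl _ _))
      (Submodule.smul_mem _ _ (XJ_Fl _ _)))) (fun M hM => ?_) ?_ hx
    · rw [hab]
      exact Submodule.add_mem _ (Submodule.smul_mem _ _ (ad_SS hpt.grp (fun lam => mt_tW _ _ lam)
        hW0 hbW M hM)) (Submodule.smul_mem _ _ (ad_SS hpt.grp (fun lam => mt_tJ _ _ lam)
        hJ hbJ M hM))
    · rw [hab]
      exact Submodule.add_mem _ (Submodule.smul_mem _ _ (ad_mt (fun lam => mt_tW _ _ lam)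
        hW0 hbW hW hW1)) (Submodule.smul_mem _ _ (ad_mt (fun lam => mt_tJ _ _ lam)
        hJ hbJ hW hW1))

end main

end Pool.Agent.N208.UR
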