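import Pool.Agent.N208.UR.Fil

set_option autoImplicit false
set_option linter.unusedSectionVars false

/-!
# Conjugation by exponentials
-/

open Module Matrix

noncomputable section

namespace Pool.Agent.N208.UR

section gen

theorem exp_add' {E : Type} [NormedRing E] [NormedAlgebra ℂ E] [CompleteSpace E] {x y : E}
    (h : Commute x y) :
    NormedSpace.exp (x + y) = NormedSpace.exp x * NormedSpace.exp y :=
  NormedSpace.exp_add_of_commute_of_mem_ball (𝕂 := ℂ) h
    ((NormedSpace.expSeries_radius_eq_top ℂ E).symm ▸ edist_lt_top _ _)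
    ((NormedSpace.expSeries_radius_eq_top ℂ E).symm ▸ edist_lt_top _ _)

variable {E : Type} [NormedRing E] [NormedAlgebra ℂ E] [CompleteSpace E]

/-- left multiplication -/
def Lc (X : E) : E →L[ℂ] E := ContinuousLinearMap.mul ℂ E X

/-- right multiplication -/
def Rc (X : E) : E →L[ℂ] E := (ContinuousLinearMap.mul ℂ E).flip X

theorem Lc_apply (X Y : E) : Lc X Y = X * Y := rfl

theorem Rc_apply (X Y : E) : Rc X Y = Y * X := rfl

theorem Lc_pow (X : E) (n : ℕ) : Lc X ^ n = Lc (X ^ n) := by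
  induction n with
  | zero =>
    refine ContinuousLinearMap.ext fun Y => ?_
    rw [pow_zero, pow_zero, Lc_apply, one_mul]
    rfl
  | succ n ih =>
    refine ContinuousLinearMap.ext fun Y => ?_
    rw [pow_succ, pow_succ, ih, Lc_apply, mul_assoc]
    rfl

theorem Rc_pow (X : E) (n : ℕ) : Rc X ^ n = Rc (X ^ n) := by
  induction n with
  | zero =>
    refine ContinuousLinearMap.ext fun Y => ?_
    rw [pow_zero, pow_zero, Rc_apply, mul_one]
    rfl
  | succ n ih =>
    refine ContinuousLinearMap.ext fun Y => ?_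
    rw [pow_succ, pow_succ', ih, Rc_apply, ← mul_assoc]
    rfl

theorem exp_Lc (X : E) : NormedSpace.exp (Lc X) = Lc (NormedSpace.exp X) := by
  have h1 := NormedSpace.exp_series_hasSum_exp' (𝕂 := ℂ) X
  have h2 := (ContinuousLinearMap.mul ℂ E).hasSum h1
  have h3 := NormedSpace.exp_series_hasSum_exp' (𝕂 := ℂ) (Lc X)
  have h4 : (fun k : ℕ => (ContinuousLinearMap.mul ℂ E)
      (((k.factorial : ℂ)⁻¹) • X ^ k)) = fun k : ℕ => ((k.factorial : ℂ)⁻¹) • Lc X ^ k := by
    funext k
    rw [Lc_pow, map_smul]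
    rfl
  rw [h4] at h2
  exact h3.unique h2

theorem exp_Rc (X : E) : NormedSpace.exp (Rc X) = Rc (NormedSpace.exp X) := by
  have h1 := NormedSpace.exp_series_hasSum_exp' (𝕂 := ℂ) X
  have h2 := (ContinuousLinearMap.mul ℂ E).flip.hasSum h1
  have h3 := NormedSpace.exp_series_hasSum_exp' (𝕂 := ℂ) (Rc X)
  have h4 : (fun k : ℕ => (ContinuousLinearMap.mul ℂ E).flip
      (((k.factorial : ℂ)⁻¹) • X ^ k)) = fun k : ℕ => ((k.factorial : ℂ)⁻¹) • Rc X ^ k := by
    funext k
    rw [Rc_pow, map_smul]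
    rfl
  rw [h4] at h2
  exact h3.unique h2

/-- Conjugation by the exponential is the exponential of the commutator. -/
theorem exp_conj (X M : E) :
    NormedSpace.exp X * M * NormedSpace.exp (-X) = NormedSpace.exp (Lc X + Rc (-X)) M := by
  have h1 : Commute (Lc X) (Rc (-X)) := by
    refine ContinuousLinearMap.ext fun Y => ?_
    change X * (Y * -X) = X * Y * -X
    rw [mul_assoc]
  rw [exp_add' h1, exp_Lc, exp_Rc]
  change _ = NormedSpace.exp X * (M * NormedSpace.exp (-X))
  rw [mul_assoc]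

theorem exp_conj_sub_gen [FiniteDimensional ℂ E] {S : Submodule ℂ E} {X M : E}
    (hS : ∀ N ∈ S, X * N - N * X ∈ S) (hM : X * M - M * X ∈ S) :
    NormedSpace.exp X * M * NormedSpace.exp (-X) - M ∈ S := by
  rw [exp_conj]
  by_contra hcon
  obtain ⟨ψ, hψ2, hψ1⟩ := Submodule.exists_le_ker_of_notMem hcon
  apply hψ2
  have h0 : ∀ Y, (Lc X + Rc (-X)) Y = X * Y - Y * X := by
    intro Y
    change X * Y + Y * -X = _
    rw [mul_neg, sub_eq_add_neg]
  have h1 : ∀ k : ℕ, ((Lc X + Rc (-X)) ^ (k + 1)) M ∈ S := by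
    intro k
    induction k with
    | zero =>
      rw [zero_add, pow_one, h0]
      exact hM
    | succ k ih =>
      rw [pow_succ']
      change (Lc X + Rc (-X)) (((Lc X + Rc (-X)) ^ (k + 1)) M) ∈ S
      rw [h0]
      exact hS _ ih
  have h2 := NormedSpace.exp_series_hasSum_exp' (𝕂 := ℂ) (Lc X + Rc (-X))
  have h3 := (ContinuousLinearMap.apply ℂ E M).hasSum h2
  have h4 := (LinearMap.toContinuousLinearMap ψ).hasSum h3
  have h5 : HasSum (fun k : ℕ => (LinearMap.toContinuousLinearMap ψ)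
      ((ContinuousLinearMap.apply ℂ E M)
        (((k.factorial : ℂ)⁻¹) • (Lc X + Rc (-X)) ^ k))) (ψ M) := by
    have h6 := hasSum_single (f := fun k : ℕ => (LinearMap.toContinuousLinearMap ψ)
      ((ContinuousLinearMap.apply ℂ E M)
        (((k.factorial : ℂ)⁻¹) • (Lc X + Rc (-X)) ^ k))) 0 (by
      intro k hk
      obtain ⟨m, rfl⟩ := Nat.exists_eq_succ_of_ne_zero hk
      change ψ ((((m + 1).factorial : ℂ)⁻¹) • ((Lc X + Rc (-X)) ^ (m + 1)) M) = 0
      rw [map_smul, LinearMap.mem_ker.1 (hψ1 (h1 m)), smul_zero])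
    convert h6 using 1
    change ψ M = ψ (((Nat.factorial 0 : ℂ)⁻¹) • ((Lc X + Rc (-X)) ^ 0) M)
    rw [pow_zero]
    simp
  rw [map_sub, sub_eq_zero]
  exact h4.unique h5

end gen

variable {B : Type} [Fintype B] [DecidableEq B]

section norms

attribute [local instance] Matrix.linftyOpNormedRing Matrix.linftyOpNormedAlgebra

theorem exp_conj_sub {S : Submodule ℂ (Matrix B B ℂ)} {X M : Matrix B B ℂ}
    (hS : ∀ N ∈ S, X * N - N * X ∈ S) (hM : X * M - M * X ∈ S) :
    NormedSpace.exp X * M * NormedSpace.exp (-X) - M ∈ S :=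
  exp_conj_sub_gen (E := Matrix B B ℂ) hS hM

end norms

end Pool.Agent.N208.UR
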