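import Pool.Agent.R917.MT
import Pool.Agent.R917.OM.Hdg
import Pool.Agent.N208.AM.Solv

set_option autoImplicit false
set_option linter.unusedSectionVars false

/-!
# Filtrations of matrices, and the exponential function
-/

open Module Matrix

noncomputable section

namespace Pool.Agent.N208.UR

open Pool.Agent.TH119.MX Pool.Agent.R917 Pool.Agent.R917.OM Pool.Agent.TH119.DR

variable {B : Type} [Fintype B] [DecidableEq B]

/-! ### The filtration given by a level function -/

section fil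

variable (lev : B → ℕ)

/-- The matrices which raise the level by `k`. -/
def Fl (k : ℕ) : Submodule ℂ (Matrix B B ℂ) where
  carrier := {x | ∀ r r', lev r' < lev r + k → x r r' = 0}
  zero_mem' := fun _ _ _ => rfl
  add_mem' := by
    intro x y hx hy r r' h
    rw [Matrix.add_apply, hx r r' h, hy r r' h, add_zero]
  smul_mem' := by
    intro c x hx r r' h
    rw [Matrix.smul_apply, hx r r' h, smul_zero]

variable {lev}

theorem mem_Fl {k : ℕ} {x : Matrix B B ℂ} :
    x ∈ Fl lev k ↔ ∀ r r', lev r' < lev r + k → x r r' = 0 := Iff.rfl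

theorem Fl_mul {a b : ℕ} {x y : Matrix B B ℂ} (hx : x ∈ Fl lev a) (hy : y ∈ Fl lev b) :
    x * y ∈ Fl lev (a + b) := by
  intro r r' h
  rw [Matrix.mul_apply]
  refine Finset.sum_eq_zero fun k _ => ?_
  by_cases hk : lev k < lev r + a
  · rw [hx r k hk, zero_mul]
  · rw [hy k r' (by omega), mul_zero]

theorem Fl_mono {a b : ℕ} (h : a ≤ b) {x : Matrix B B ℂ} (hx : x ∈ Fl lev b) : x ∈ Fl lev a :=
  fun r r' h' => hx r r' (by omega)

theorem Fl_three (h2 : ∀ r, lev r ≤ 2) {k : ℕ} (hk : 3 ≤ k) {x : Matrix B B ℂ}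
    (hx : x ∈ Fl lev k) : x = 0 := by
  ext r r'
  have h := h2 r'
  exact hx r r' (by omega)

theorem one_Fl : (1 : Matrix B B ℂ) ∈ Fl lev 0 := by
  intro r r' h
  refine Matrix.one_apply_ne fun h' => ?_
  subst h'
  omega

theorem inv_Fl {x y : Matrix B B ℂ} (hx : x ∈ Fl lev 0) (hyx : y * x = 1) :
    y ∈ Fl lev 0 := by
  let T : Fl lev 0 →ₗ[ℂ] Fl lev 0 :=
    { toFun := fun z => ⟨x * z.1, Fl_mul hx z.2⟩
      map_add' := fun z z' => by
        apply Subtype.ext
        simp [Matrix.mul_add]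
      map_smul' := fun c z => by
        apply Subtype.ext
        simp }
  have hT : Function.Injective T := by
    intro z z' h
    have h1 : x * z.1 = x * z'.1 := congrArg Subtype.val h
    apply Subtype.ext
    calc z.1 = y * (x * z.1) := by rw [← Matrix.mul_assoc, hyx, Matrix.one_mul]
      _ = y * (x * z'.1) := by rw [h1]
      _ = z'.1 := by rw [← Matrix.mul_assoc, hyx, Matrix.one_mul]
  obtain ⟨z, hz⟩ := LinearMap.injective_iff_surjective.1 hT ⟨1, one_Fl⟩
  have h1 : x * z.1 = 1 := congrArg Subtype.val hz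
  have h2 : z.1 = y := by
    calc z.1 = y * (x * z.1) := by rw [← Matrix.mul_assoc, hyx, Matrix.one_mul]
      _ = y := by rw [h1, Matrix.mul_one]
  rw [← h2]
  exact z.2

/-- The matrix of the levels. -/
def DD (lev : B → ℕ) : Matrix B B ℂ := Matrix.diagonal fun r => (lev r : ℂ)

/-- The commutator with an element which acts by the levels on the graded pieces. -/
theorem comm_Fl {W : Matrix B B ℂ} (hW : W - DD lev ∈ Fl lev 1) {k : ℕ} {x : Matrix B B ℂ}
    (hx : x ∈ Fl lev k) : x * W - W * x - (k : ℂ) • x ∈ Fl lev (k + 1) := by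
  have h1 : x * (W - DD lev) ∈ Fl lev (k + 1) := Fl_mul hx hW
  have h2 : (W - DD lev) * x ∈ Fl lev (k + 1) := by
    rw [add_comm]
    exact Fl_mul hW hx
  have h3 : x * DD lev - DD lev * x - (k : ℂ) • x ∈ Fl lev (k + 1) := by
    intro r r' h
    rw [Matrix.sub_apply, Matrix.sub_apply, Matrix.smul_apply, DD, Matrix.mul_diagonal,
      Matrix.diagonal_mul, smul_eq_mul]
    by_cases h' : lev r' < lev r + k
    · rw [hx r r' h']
      ring
    · have h4 : lev r' = lev r + k := by omega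
      rw [h4]
      push_cast
      ring
  have h4 : x * W - W * x - (k : ℂ) • x = x * (W - DD lev) - (W - DD lev) * x +
      (x * DD lev - DD lev * x - (k : ℂ) • x) := by
    rw [Matrix.mul_sub, Matrix.sub_mul]
    abel
  rw [h4]
  exact Submodule.add_mem _ (Submodule.sub_mem _ h1 h2) h3

/-- The decomposition of the logarithm. -/
theorem log_eq (h2 : ∀ r, lev r ≤ 2) {W : Matrix B B ℂ} (hW : W - DD lev ∈ Fl lev 1)
    {N : Matrix B B ℂ} (hN : N ∈ Fl lev 1) :
    (2 : ℂ) • N = (3 : ℂ) • (N * W - W * N) -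
      ((N * W - W * N) * W - W * (N * W - W * N)) := by
  have e1 := comm_Fl hW hN
  rw [Nat.cast_one, one_smul] at e1
  have e2 := comm_Fl hW e1
  have e3 := Fl_three h2 (le_refl 3) e2
  have e4 : (N * W - W * N - N) * W - W * (N * W - W * N - N) -
      ((1 + 1 : ℕ) : ℂ) • (N * W - W * N - N) =
      (N * W - W * N) * W - W * (N * W - W * N) - (3 : ℂ) • (N * W - W * N) + (2 : ℂ) • N := by
    have h3 : (3 : ℂ) • (N * W - W * N) = (N * W - W * N) + (2 : ℂ) • (N * W - W * N) := by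
      module
    have h4 : ((1 + 1 : ℕ) : ℂ) • (N * W - W * N - N) =
        (2 : ℂ) • (N * W - W * N) - (2 : ℂ) • N := by
      rw [← smul_sub]
      norm_num
    rw [h3, h4, Matrix.sub_mul (N * W - W * N) N, Matrix.mul_sub W (N * W - W * N)]
    abel
  rw [e4] at e3
  have h5 : (2 : ℂ) • N = ((N * W - W * N) * W - W * (N * W - W * N) -
      (3 : ℂ) • (N * W - W * N) + (2 : ℂ) • N) - ((N * W - W * N) * W - W * (N * W - W * N) -
      (3 : ℂ) • (N * W - W * N)) := by abel
  rw [h5, e3]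
  abel

/-- The logarithm commutes with the commutator. -/
theorem log_comm (h2 : ∀ r, lev r ≤ 2) {W : Matrix B B ℂ} (hW : W - DD lev ∈ Fl lev 1)
    {N : Matrix B B ℂ} (hN : N ∈ Fl lev 1) :
    N * (N * W - W * N) = (N * W - W * N) * N := by
  have e1 := comm_Fl hW hN
  rw [Nat.cast_one, one_smul] at e1
  have e2 := Fl_three h2 (by norm_num) (Fl_mul hN e1)
  have e3 := Fl_three h2 (by norm_num) (Fl_mul e1 hN)
  rw [Matrix.mul_sub, sub_eq_zero] at e2
  rw [Matrix.sub_mul (N * W - W * N), sub_eq_zero] at e3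
  rw [e2, e3]

/-- **The logarithm of a unipotent element**, in terms of the weight. -/
theorem unip_eq (h2 : ∀ r, lev r ≤ 2) {W : Matrix B B ℂ} (hW : W - DD lev ∈ Fl lev 1)
    {z z' : Matrix B B ℂ} (hz : z - 1 ∈ Fl lev 1) (hzz : z * z' = 1) :
    ∃ N ∈ Fl lev 1, z = 1 + N + (2 : ℂ)⁻¹ • (N * N) ∧ N * N * N = 0 ∧
      z * W * z' - W = N * W - W * N := by
  obtain ⟨M, hM⟩ : ∃ M, M = z - 1 := ⟨_, rfl⟩
  rw [← hM] at hz
  have hM2 : M * M ∈ Fl lev 2 := Fl_mul hz hz
  have hM3 : M * M * M = 0 := Fl_three h2 (by norm_num) (Fl_mul hM2 hz)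
  obtain ⟨N, hN⟩ : ∃ N, N = M - (2 : ℂ)⁻¹ • (M * M) := ⟨_, rfl⟩
  have hN1 : N ∈ Fl lev 1 := by
    rw [hN]
    exact Submodule.sub_mem _ hz (Submodule.smul_mem _ _ (Fl_mono (by norm_num) hM2))
  have hN2 : N * N = M * M := by
    rw [hN, Matrix.sub_mul, Matrix.mul_sub, Matrix.mul_smul, Matrix.smul_mul, Matrix.mul_sub,
      Matrix.mul_smul, ← Matrix.mul_assoc, hM3, ← Matrix.mul_assoc, hM3]
    simp
  have hN3 : N * N * N = 0 := Fl_three h2 (by norm_num) (Fl_mul (Fl_mul hN1 hN1) hN1)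
  have hz1 : z = 1 + N + (2 : ℂ)⁻¹ • (N * N) := by
    rw [hN2, hN, hM]
    abel
  refine ⟨N, hN1, hz1, hN3, ?_⟩
  have hc := log_comm h2 hW hN1
  obtain ⟨C, hC⟩ : ∃ C, C = N * W - W * N := ⟨_, rfl⟩
  rw [← hC] at hc ⊢
  have hC1 : C ∈ Fl lev 1 := by
    have e1 := comm_Fl hW hN1
    rw [Nat.cast_one, one_smul, ← hC] at e1
    have e2 := Submodule.add_mem _ (Fl_mono (by norm_num) e1 : C - N ∈ Fl lev 1) hN1
    rwa [sub_add_cancel] at e2
  have h3 : z * W = W * z + C * z := by
    have e1 : N * W = W * N + C := by rw [hC]; abel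
    have e2 : N * N * W = W * (N * N) + (2 : ℂ) • (C * N) := by
      calc N * N * W = N * (N * W) := Matrix.mul_assoc _ _ _
        _ = N * (W * N + C) := by rw [e1]
        _ = N * W * N + N * C := by rw [Matrix.mul_add, ← Matrix.mul_assoc]
        _ = W * (N * N) + (2 : ℂ) • (C * N) := by
          rw [e1, hc, Matrix.add_mul, Matrix.mul_assoc, two_smul, add_assoc]
    have e3 : C * (N * N) = 0 := Fl_three h2 (by norm_num) (Fl_mul hC1 (Fl_mul hN1 hN1))
    rw [hz1, Matrix.add_mul, Matrix.add_mul, Matrix.one_mul, Matrix.smul_mul, e1, e2,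
      Matrix.mul_add, Matrix.mul_add, Matrix.mul_one, Matrix.mul_smul, Matrix.mul_add,
      Matrix.mul_add, Matrix.mul_one, Matrix.mul_smul, e3, smul_zero, smul_add, smul_smul]
    norm_num
    abel
  rw [h3, Matrix.add_mul, Matrix.mul_assoc, hzz, Matrix.mul_one, Matrix.mul_assoc, hzz,
    Matrix.mul_one]
  abel

end fil

end Pool.Agent.N208.UR
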