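import Pool.Agent.N208.UR.Nrm

set_option autoImplicit false
set_option linter.unusedSectionVars false

/-!
# The normalizer of the unipotent part of the Lie algebra is an algebraic group
-/

open Module Matrix

noncomputable section

namespace Pool.Agent.N208.UR

open Pool.Agent.TH119.MX Pool.Agent.R917 Pool.Agent.R917.OM Pool.Agent.TH119.DR
  Pool.Agent.W437.HK

variable {B : Type} [Fintype B] [DecidableEq B] {lev : B → ℕ} {H : Set (Matrix B B ℂ)}

theorem conj_inv {S : Submodule ℂ (Matrix B B ℂ)} {x y : Matrix B B ℂ}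
    (hyx : y * x = 1) (h : ∀ M ∈ S, x * M * y ∈ S) : ∀ M ∈ S, y * M * x ∈ S := by
  let T : S →ₗ[ℂ] S := (cjg x y).restrict (fun M hM => h M hM)
  have hT : Function.Injective T := by
    intro M M' h1
    have h2 : x * M.1 * y = x * M'.1 * y := congrArg Subtype.val h1
    apply Subtype.ext
    have h3 : ∀ Z : Matrix B B ℂ, y * (x * Z * y) * x = Z := by
      intro Z
      calc y * (x * Z * y) * x = (y * x) * Z * (y * x) := by simp only [Matrix.mul_assoc]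
        _ = Z := by rw [hyx, Matrix.one_mul, Matrix.mul_one]
    rw [← h3 M.1, h2, h3]
  intro M hM
  obtain ⟨N, hN⟩ := LinearMap.injective_iff_surjective.1 hT ⟨M, hM⟩
  have h1 : x * N.1 * y = M := congrArg Subtype.val hN
  have h2 : y * M * x = N.1 := by
    rw [← h1]
    calc y * (x * N.1 * y) * x = (y * x) * N.1 * (y * x) := by simp only [Matrix.mul_assoc]
      _ = N.1 := by rw [hyx, Matrix.one_mul, Matrix.mul_one]
  rw [h2]
  exact N.2

/-- The normalizer. -/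
def KK (lev : B → ℕ) (H : Set (Matrix B B ℂ)) (W : Matrix B B ℂ) : Subgroup (GL B ℂ) where
  carrier := {x | (x : Matrix B B ℂ) ∈ Fl lev 0 ∧
    (∀ M ∈ SS lev H, (x : Matrix B B ℂ) * M * (x⁻¹ : GL B ℂ) ∈ SS lev H) ∧
    (x : Matrix B B ℂ) * W * (x⁻¹ : GL B ℂ) - W ∈ SS lev H}
  one_mem' := by
    refine ⟨?_, fun M hM => ?_, ?_⟩
    · rw [Units.val_one]
      exact one_Fl
    · rw [inv_one, Units.val_one, Matrix.one_mul, Matrix.mul_one]
      exact hM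
    · rw [inv_one, Units.val_one, Matrix.one_mul, Matrix.mul_one, sub_self]
      exact Submodule.zero_mem _
  mul_mem' := by
    rintro x y ⟨x1, x2, x3⟩ ⟨y1, y2, y3⟩
    have h0 : ∀ M : Matrix B B ℂ, ((x * y : GL B ℂ) : Matrix B B ℂ) * M * ((x * y)⁻¹ : GL B ℂ) =
        x * (y * M * (y⁻¹ : GL B ℂ)) * (x⁻¹ : GL B ℂ) := by
      intro M
      rw [_root_.mul_inv_rev, Units.val_mul, Units.val_mul]
      simp only [Matrix.mul_assoc]
    refine ⟨?_, fun M hM => ?_, ?_⟩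
    · rw [Units.val_mul]
      exact Fl_mul x1 y1
    · rw [h0]
      exact x2 _ (y2 M hM)
    · have h1 : ((x * y : GL B ℂ) : Matrix B B ℂ) * W * ((x * y)⁻¹ : GL B ℂ) - W =
          x * (y * W * (y⁻¹ : GL B ℂ) - W) * (x⁻¹ : GL B ℂ) + (x * W * (x⁻¹ : GL B ℂ) - W) := by
        rw [h0, Matrix.mul_sub, Matrix.sub_mul]
        abel
      rw [h1]
      exact Submodule.add_mem _ (x2 _ y3) x3
  inv_mem' := by
    rintro x ⟨x1, x2, x3⟩
    have h1 := conj_inv (x.inv_mul) x2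
    refine ⟨inv_Fl x1 x.inv_mul, fun M hM => ?_, ?_⟩
    · rw [inv_inv]
      exact h1 M hM
    · have h2 := h1 _ x3
      rw [inv_inv]
      have h3 : ((x⁻¹ : GL B ℂ) : Matrix B B ℂ) * W * x - W =
          -((x⁻¹ : GL B ℂ) * (x * W * (x⁻¹ : GL B ℂ) - W) * (x : Matrix B B ℂ)) := by
        rw [Matrix.mul_sub, Matrix.sub_mul]
        have h4 : ((x⁻¹ : GL B ℂ) : Matrix B B ℂ) * (x * W * (x⁻¹ : GL B ℂ)) * x = W := by
          calc ((x⁻¹ : GL B ℂ) : Matrix B B ℂ) * (x * W * (x⁻¹ : GL B ℂ)) * x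
              = ((x⁻¹ : GL B ℂ) * x) * W * ((x⁻¹ : GL B ℂ) * x) := by
                simp only [Matrix.mul_assoc]
            _ = W := by rw [x.inv_mul, Matrix.one_mul, Matrix.mul_one]
        rw [h4]
        abel
      rw [h3]
      exact Submodule.neg_mem _ h2

theorem mem_KK {W : Matrix B B ℂ} {x : GL B ℂ} : x ∈ KK lev H W ↔
    (x : Matrix B B ℂ) ∈ Fl lev 0 ∧
    (∀ M ∈ SS lev H, (x : Matrix B B ℂ) * M * (x⁻¹ : GL B ℂ) ∈ SS lev H) ∧
    (x : Matrix B B ℂ) * W * (x⁻¹ : GL B ℂ) - W ∈ SS lev H := Iff.rfl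

/-! ### The equations -/

theorem ev_smul (ψ : Matrix B B ℚ →ₗ[ℚ] ℚ) (c : ℂ) (M : Matrix B B ℂ) :
    ev ψ (c • M) = c * ev ψ M := by
  unfold ev
  rw [Finset.mul_sum]
  refine Finset.sum_congr rfl fun i _ => ?_
  rw [Finset.mul_sum]
  refine Finset.sum_congr rfl fun j _ => ?_
  rw [Matrix.smul_apply, smul_eq_mul]
  ring

theorem ev_sub (ψ : Matrix B B ℚ →ₗ[ℚ] ℚ) (M N : Matrix B B ℂ) :
    ev ψ (M - N) = ev ψ M - ev ψ N := by
  unfold ev
  simp only [Matrix.sub_apply, mul_sub, Finset.sum_sub_distrib]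

theorem inv_eq_adj (x : GL B ℂ) : ((x⁻¹ : GL B ℂ) : Matrix B B ℂ) =
    ((x : Matrix B B ℂ).det)⁻¹ • (x : Matrix B B ℂ).adjugate := by
  rw [Matrix.coe_units_inv, Matrix.inv_def, Ring.inverse_eq_inv']

theorem det_ne (x : GL B ℂ) : (x : Matrix B B ℂ).det ≠ 0 :=
  (Matrix.GeneralLinearGroup.det x).ne_zero

/-- the polynomial matrix -/
def XG (B : Type) : Matrix B B (MvPolynomial (B × B) ℚ) :=
  Matrix.of fun i j => MvPolynomial.X (i, j)

/-- the polynomials for the conjugation -/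
def Pp (ψ : Matrix B B ℚ →ₗ[ℚ] ℚ) (N : Matrix B B ℚ) : MvPolynomial (B × B) ℚ :=
  ∑ i, ∑ j, MvPolynomial.C (ψ (Matrix.single i j 1)) *
    (XG B * N.map (MvPolynomial.C (σ := B × B)) * (XG B).adjugate :
      Matrix B B (MvPolynomial (B × B) ℚ)) i j

/-- the polynomials for the weight -/
def Qp (ψ : Matrix B B ℚ →ₗ[ℚ] ℚ) (N : Matrix B B ℚ) : MvPolynomial (B × B) ℚ :=
  ∑ i, ∑ j, MvPolynomial.C (ψ (Matrix.single i j 1)) *
    ((XG B).det * MvPolynomial.C (N i j))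

theorem aeval_XG (x : Matrix B B ℂ) :
    (XG B).map (MvPolynomial.aeval (R := ℚ) fun b : B × B => x b.1 b.2) = x := by
  ext i j
  rw [Matrix.map_apply, XG, Matrix.of_apply, MvPolynomial.aeval_X]

theorem aeval_Pp (ψ : Matrix B B ℚ →ₗ[ℚ] ℚ) (N : Matrix B B ℚ) (x : Matrix B B ℂ) :
    MvPolynomial.aeval (fun b : B × B => x b.1 b.2) (Pp ψ N) =
      ev ψ (x * cqm N * x.adjugate) := by
  obtain ⟨f, hf⟩ : ∃ f : MvPolynomial (B × B) ℚ →ₐ[ℚ] ℂ,
    f = MvPolynomial.aeval (fun b : B × B => x b.1 b.2) := ⟨_, rfl⟩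
  have h1 : (XG B).map f = x := by rw [hf]; exact aeval_XG x
  have h2 : (XG B * N.map MvPolynomial.C * (XG B).adjugate).map f =
      x * cqm N * x.adjugate := by
    have e1 := RingHom.map_adjugate (f : MvPolynomial (B × B) ℚ →+* ℂ) (XG B)
    have e2 : (XG B).adjugate.map f = ((XG B).map f).adjugate := e1
    have e3 : (N.map MvPolynomial.C).map f = cqm N := by
      ext i j
      rw [Matrix.map_apply, Matrix.map_apply, cqm_apply]
      exact MvPolynomial.algHom_C f _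
    rw [Matrix.map_mul, Matrix.map_mul, e2, e3, h1]
  rw [← hf, Pp, map_sum, ev]
  refine Finset.sum_congr rfl fun i _ => ?_
  rw [map_sum]
  refine Finset.sum_congr rfl fun j _ => ?_
  rw [map_mul, ← h2, Matrix.map_apply]
  congr 1
  exact MvPolynomial.algHom_C f _

theorem aeval_Qp (ψ : Matrix B B ℚ →ₗ[ℚ] ℚ) (N : Matrix B B ℚ) (x : Matrix B B ℂ) :
    MvPolynomial.aeval (fun b : B × B => x b.1 b.2) (Qp ψ N) =
      x.det * ev ψ (cqm N) := by
  obtain ⟨f, hf⟩ : ∃ f : MvPolynomial (B × B) ℚ →ₐ[ℚ] ℂ,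
    f = MvPolynomial.aeval (fun b : B × B => x b.1 b.2) := ⟨_, rfl⟩
  have h1 : (XG B).map f = x := by rw [hf]; exact aeval_XG x
  have h2 : f (XG B).det = x.det := by
    have e1 := RingHom.map_det (f : MvPolynomial (B × B) ℚ →+* ℂ) (XG B)
    have e2 : f (XG B).det = ((XG B).map f).det := e1
    rw [e2, h1]
  rw [← hf, Qp, map_sum, ev, Finset.mul_sum]
  refine Finset.sum_congr rfl fun i _ => ?_
  rw [map_sum, Finset.mul_sum]
  refine Finset.sum_congr rfl fun j _ => ?_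
  rw [map_mul, map_mul, h2, cqm_apply]
  have e3 : ∀ q : ℚ, f (MvPolynomial.C q) = (q : ℂ) := fun q => MvPolynomial.algHom_C f q
  rw [e3, e3]
  ring

/-- **The normalizer is an algebraic group** over the rational numbers. -/
theorem KK_alg (hH : AlgGrp QQ H) (Wq : Matrix B B ℚ) :
    ∃ I : Set (MvPolynomial (B × B) ℚ), ∀ x : GL B ℂ, x ∈ KK lev H (cqm Wq) ↔
      ∀ p ∈ I, MvPolynomial.aeval (fun b : B × B => (x : Matrix B B ℂ) b.1 b.2) p = 0 := by
  refine ⟨{p | (∃ r r', lev r' < lev r ∧ p = MvPolynomial.X (r, r')) ∨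
    (∃ N ∈ SQ lev H, ∃ ψ : Matrix B B ℚ →ₗ[ℚ] ℚ, (∀ N ∈ SQ lev H, ψ N = 0) ∧ p = Pp ψ N) ∨
    ∃ ψ : Matrix B B ℚ →ₗ[ℚ] ℚ, (∀ N ∈ SQ lev H, ψ N = 0) ∧ p = Pp ψ Wq - Qp ψ Wq},
    fun x => ?_⟩
  have hdet := det_ne x
  have key : ∀ M : Matrix B B ℂ, (x : Matrix B B ℂ) * M * (x⁻¹ : GL B ℂ) =
      ((x : Matrix B B ℂ).det)⁻¹ • ((x : Matrix B B ℂ) * M * (x : Matrix B B ℂ).adjugate) := by
    intro M
    rw [inv_eq_adj, Matrix.mul_smul]
  have key2 : (x : Matrix B B ℂ) * cqm Wq * (x⁻¹ : GL B ℂ) - cqm Wq =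
      ((x : Matrix B B ℂ).det)⁻¹ • ((x : Matrix B B ℂ) * cqm Wq * (x : Matrix B B ℂ).adjugate -
        (x : Matrix B B ℂ).det • cqm Wq) := by
    rw [key, smul_sub, smul_smul, inv_mul_cancel₀ hdet, one_smul]
  rw [mem_KK]
  constructor
  · rintro ⟨h1, h2, h3⟩ p hp
    rcases hp with ⟨r, r', hr, rfl⟩ | ⟨N, hN, ψ, hψ, rfl⟩ | ⟨ψ, hψ, rfl⟩
    · rw [MvPolynomial.aeval_X]
      exact h1 r r' (by omega)
    · rw [aeval_Pp]
      have h4 := (mem_SS_iff hH).1 (h2 _ (mem_SQ.1 hN)) ψ hψ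
      rw [key, ev_smul] at h4
      exact (mul_eq_zero.1 h4).resolve_left (inv_ne_zero hdet)
    · rw [map_sub, aeval_Pp, aeval_Qp]
      have h4 := (mem_SS_iff hH).1 h3 ψ hψ
      rw [key2, ev_smul, ev_sub, ev_smul] at h4
      exact (mul_eq_zero.1 h4).resolve_left (inv_ne_zero hdet)
  · intro h
    refine ⟨fun r r' hr => ?_, ?_, ?_⟩
    · have h1 := h _ (Or.inl ⟨r, r', by omega, rfl⟩)
      rwa [MvPolynomial.aeval_X] at h1
    · have h1 := forall_SS (lev := lev) hH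
        (cjg (x : Matrix B B ℂ) ((x⁻¹ : GL B ℂ) : Matrix B B ℂ)) fun N hN => ?_
      · exact h1
      · rw [cjg_apply, key]
        refine Submodule.smul_mem _ _ ((mem_SS_iff hH).2 fun ψ hψ => ?_)
        have h2 := h _ (Or.inr (Or.inl ⟨N, hN, ψ, hψ, rfl⟩))
        rwa [aeval_Pp] at h2
    · rw [key2]
      refine Submodule.smul_mem _ _ ((mem_SS_iff hH).2 fun ψ hψ => ?_)
      have h2 := h _ (Or.inr (Or.inr ⟨ψ, hψ, rfl⟩))
      rw [map_sub, aeval_Pp, aeval_Qp] at h2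
      rw [ev_sub, ev_smul]
      exact h2

/-! ### Elements of the normalizer -/

theorem exp_mul_neg (X : Matrix B B ℂ) : NormedSpace.exp X * NormedSpace.exp (-X) = 1 :=
  (Pool.Agent.N208.AM.eG X).val_inv

/-- The exponential. -/
theorem exp_KK {W X : Matrix B B ℂ} (h0 : NormedSpace.exp X ∈ Fl lev 0)
    (h1 : ∀ M ∈ SS lev H, X * M - M * X ∈ SS lev H) (h2 : X * W - W * X ∈ SS lev H)
    {x : GL B ℂ} (hx : (x : Matrix B B ℂ) = NormedSpace.exp X) : x ∈ KK lev H W := by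
  have h3 : ((x⁻¹ : GL B ℂ) : Matrix B B ℂ) = NormedSpace.exp (-X) := by
    calc ((x⁻¹ : GL B ℂ) : Matrix B B ℂ) = (x⁻¹ : GL B ℂ) *
          (NormedSpace.exp X * NormedSpace.exp (-X)) := by rw [exp_mul_neg, Matrix.mul_one]
      _ = NormedSpace.exp (-X) := by
        rw [← Matrix.mul_assoc, ← hx, x.inv_mul, Matrix.one_mul]
  refine ⟨by rw [hx]; exact h0, fun M hM => ?_, ?_⟩
  · rw [hx, h3]
    have h4 := Submodule.add_mem _ (exp_conj_sub h1 (h1 M hM)) hM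
    rwa [sub_add_cancel] at h4
  · rw [hx, h3]
    exact exp_conj_sub h1 h2

/-- The elements of the group which preserve the filtration. -/
theorem grp_KK {F : Subfield ℂ} (hH : AlgGrp F H) {W : Matrix B B ℂ}
    (hW : W - DD lev ∈ Fl lev 1) (hWH : ∀ k, Stab H k W) {x : GL B ℂ}
    (hx : (x : Matrix B B ℂ) ∈ H) (hx0 : (x : Matrix B B ℂ) ∈ Fl lev 0) : x ∈ KK lev H W := by
  have hx1 : ((x⁻¹ : GL B ℂ) : Matrix B B ℂ) ∈ Fl lev 0 := inv_Fl hx0 x.inv_mul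
  refine ⟨hx0, fun M hM => ⟨?_, fun k => stab_conj hH hx x.mul_inv x.inv_mul (hM.2 k)⟩, ?_, ?_⟩
  · exact Fl_mul (Fl_mul hx0 hM.1) hx1
  · have h1 : (x : Matrix B B ℂ) * W * (x⁻¹ : GL B ℂ) - W =
        ((x : Matrix B B ℂ) * W - W * x) * (x⁻¹ : GL B ℂ) := by
      rw [Matrix.sub_mul, Matrix.mul_assoc W, x.mul_inv, Matrix.mul_one]
    rw [h1]
    have h2 := comm_Fl hW hx0
    rw [Nat.cast_zero, zero_smul, sub_zero] at h2
    exact Fl_mul h2 hx1
  · intro k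
    have h1 := (stab_conj hH hx x.mul_inv x.inv_mul (hWH k)).add ((hWH k).smul (-1))
    rwa [neg_one_smul, ← sub_eq_add_neg] at h1

theorem exp_three {N : Matrix B B ℂ} (hN : N * N * N = 0) :
    NormedSpace.exp N = 1 + N + (2 : ℂ)⁻¹ • (N * N) := by
  have h3 : ∀ k : ℕ, 3 ≤ k → N ^ k = 0 := by
    intro k hk
    obtain ⟨m, rfl⟩ := Nat.exists_eq_add_of_le hk
    rw [pow_add]
    have h4 : N ^ 3 = 0 := by
      rw [pow_succ, pow_two, hN]
    rw [h4, zero_mul]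
  rw [NormedSpace.exp_eq_tsum ℂ]
  change ∑' k : ℕ, ((k.factorial : ℂ)⁻¹ • N ^ k) = _
  rw [tsum_eq_sum (s := Finset.range 3)]
  · rw [Finset.sum_range_succ, Finset.sum_range_succ, Finset.sum_range_succ,
      Finset.sum_range_zero, pow_zero, pow_one, pow_two]
    simp
  · intro k hk
    rw [h3 k (by simpa using hk), smul_zero]

/-- **The unipotent elements of the normalizer are in the group.** -/
theorem unip_mem {F : Subfield ℂ} (hH : AlgGrp F H) (h2 : ∀ r, lev r ≤ 2) {W : Matrix B B ℂ}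
    (hW : W - DD lev ∈ Fl lev 1) (hWH : ∀ k, Stab H k W) {x : GL B ℂ} (hx : x ∈ KK lev H W)
    (hx1 : (x : Matrix B B ℂ) - 1 ∈ Fl lev 1) : (x : Matrix B B ℂ) ∈ H := by
  obtain ⟨N, hN, e1, e2, e3⟩ := unip_eq h2 hW hx1 x.mul_inv
  have h3 := hx.2.2
  rw [e3] at h3
  have h4 : ∀ k, Stab H k N := by
    intro k
    have h5 := log_eq h2 hW hN
    have h6 : N = (2 : ℂ)⁻¹ • ((3 : ℂ) • (N * W - W * N) -
      ((N * W - W * N) * W - W * (N * W - W * N))) := by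
      rw [← h5, smul_smul]
      norm_num
    rw [h6]
    refine Stab.smul _ ?_
    have h7 : Stab H k ((N * W - W * N) * W - W * (N * W - W * N)) := (h3.2 k).comm (hWH k)
    have h8 := ((h3.2 k).smul 3).add (h7.smul (-1))
    rwa [neg_one_smul, ← sub_eq_add_neg] at h8
  have h5 := exp_mem hH h4
  rwa [exp_three e2, ← e1] at h5

/-- **Main theorem**, in terms of matrices. -/
theorem main_KK {F : Subfield ℂ} (hH : AlgGrp F H) (h2 : ∀ r, lev r ≤ 2) {W : Matrix B B ℂ}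
    (hW : W - DD lev ∈ Fl lev 1) (hWH : ∀ k, Stab H k W) {x y : GL B ℂ} (hx : x ∈ KK lev H W)
    (hy : (y : Matrix B B ℂ) ∈ H) (hxy : (x : Matrix B B ℂ) - y ∈ Fl lev 1) :
    (x : Matrix B B ℂ) ∈ H := by
  have hy0 : (y : Matrix B B ℂ) ∈ Fl lev 0 := by
    have h1 := Submodule.sub_mem _ hx.1 (Fl_mono (Nat.zero_le 1) hxy)
    rwa [sub_sub_cancel] at h1
  have hyK := grp_KK hH hW hWH hy hy0
  have h1 : y⁻¹ * x ∈ KK lev H W := mul_mem (inv_mem hyK) hx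
  have h3 : ((y⁻¹ * x : GL B ℂ) : Matrix B B ℂ) - 1 ∈ Fl lev 1 := by
    have h4 : ((y⁻¹ * x : GL B ℂ) : Matrix B B ℂ) - 1 = ((y⁻¹ : GL B ℂ) : Matrix B B ℂ) *
        ((x : Matrix B B ℂ) - y) := by
      rw [Matrix.mul_sub, y.inv_mul, Units.val_mul]
    rw [h4]
    have h5 := Fl_mul (inv_mem hyK).1 hxy
    rwa [zero_add] at h5
  have h4 := unip_mem hH h2 hW hWH h1 h3
  have h5 := hH.mul _ hy _ h4
  rwa [Units.val_mul, ← Matrix.mul_assoc, y.mul_inv, Matrix.one_mul] at h5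

end Pool.Agent.N208.UR
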