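import Pool.Agent.N208.UR.Ex

set_option autoImplicit false
set_option linter.unusedSectionVars false

/-!
# The normalizer of the unipotent part of the Lie algebra
-/

open Module Matrix

noncomputable section

namespace Pool.Agent.N208.UR

open Pool.Agent.TH119.MX Pool.Agent.R917 Pool.Agent.R917.OM Pool.Agent.TH119.DR Pool.Agent.W437.HK

variable {B : Type} [Fintype B] [DecidableEq B]

/-- the complex matrix of a rational matrix -/
def cqm (M : Matrix B B ℚ) : Matrix B B ℂ := M.map (algebraMap ℚ ℂ)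

theorem cqm_apply (M : Matrix B B ℚ) (i j : B) : cqm M i j = ((M i j : ℚ) : ℂ) := rfl

theorem cqm_add (M N : Matrix B B ℚ) : cqm (M + N) = cqm M + cqm N := by
  unfold cqm
  rw [Matrix.map_add _ (map_add _)]

theorem cqm_smul (c : ℚ) (M : Matrix B B ℚ) : cqm (c • M) = (c : ℂ) • cqm M := by
  ext i j
  simp [cqm_apply]

theorem cqm_zero : cqm (0 : Matrix B B ℚ) = 0 := by
  unfold cqm
  rw [Matrix.map_zero _ (map_zero _)]

theorem map_lamF (lam : ℂ →ₗ[ℚ] ℚ) (M : Matrix B B ℂ) : M.map (lamF lam) = cqm (M.map lam) := rfl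

/-- The part of the Lie algebra of `H` which raises the level. -/
def SS (lev : B → ℕ) (H : Set (Matrix B B ℂ)) : Submodule ℂ (Matrix B B ℂ) where
  carrier := {M | M ∈ Fl lev 1 ∧ ∀ k, Stab H k M}
  zero_mem' := ⟨Submodule.zero_mem _, fun _ => Stab.zero⟩
  add_mem' := fun hx hy => ⟨Submodule.add_mem _ hx.1 hy.1, fun k => (hx.2 k).add (hy.2 k)⟩
  smul_mem' := fun c _ hx => ⟨Submodule.smul_mem _ c hx.1, fun k => (hx.2 k).smul c⟩

variable {lev : B → ℕ} {H : Set (Matrix B B ℂ)}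

theorem mem_SS {M : Matrix B B ℂ} : M ∈ SS lev H ↔ M ∈ Fl lev 1 ∧ ∀ k, Stab H k M := Iff.rfl

theorem SS_map (hH : AlgGrp QQ H) {M : Matrix B B ℂ} (hM : M ∈ SS lev H) (lam : ℂ →ₗ[ℚ] ℚ) :
    cqm (M.map lam) ∈ SS lev H := by
  refine ⟨fun r r' h => ?_, fun k => hH.stab_map (lamF lam) (hM.2 k)⟩
  rw [cqm_apply, Matrix.map_apply, hM.1 r r' h, map_zero, Rat.cast_zero]

theorem SS_of_map {M : Matrix B B ℂ} (h : ∀ lam : ℂ →ₗ[ℚ] ℚ, cqm (M.map lam) ∈ SS lev H) :
    M ∈ SS lev H := by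
  refine ⟨fun r r' h' => ?_, fun k => stab_of_comp fun lam => (h lam).2 k⟩
  refine Pool.Agent.W516.DR.eq_zero_of_dual (k := ℚ) fun lam => ?_
  have h1 := (h lam).1 r r' h'
  rw [cqm_apply, Matrix.map_apply] at h1
  exact_mod_cast h1

/-- the rational elements -/
def SQ (lev : B → ℕ) (H : Set (Matrix B B ℂ)) : Submodule ℚ (Matrix B B ℚ) where
  carrier := {M | cqm M ∈ SS lev H}
  zero_mem' := by
    rw [Set.mem_ofPred_eq, cqm_zero]
    exact Submodule.zero_mem _
  add_mem' := by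
    intro x y hx hy
    rw [Set.mem_ofPred_eq, cqm_add]
    exact Submodule.add_mem _ hx hy
  smul_mem' := by
    intro c x hx
    rw [Set.mem_ofPred_eq, cqm_smul]
    exact Submodule.smul_mem _ _ hx

theorem mem_SQ {M : Matrix B B ℚ} : M ∈ SQ lev H ↔ cqm M ∈ SS lev H := Iff.rfl

theorem functional_mat (ψ : Matrix B B ℚ →ₗ[ℚ] ℚ) (M : Matrix B B ℚ) :
    ψ M = ∑ i, ∑ j, ψ (Matrix.single i j 1) * M i j := by
  conv_lhs => rw [Matrix.matrix_eq_sum_single M]
  rw [map_sum]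
  refine Finset.sum_congr rfl fun i _ => ?_
  rw [map_sum]
  refine Finset.sum_congr rfl fun j _ => ?_
  have h1 : (Matrix.single i j (M i j) : Matrix B B ℚ) = M i j • Matrix.single i j 1 := by
    rw [Matrix.smul_single, smul_eq_mul, mul_one]
  rw [h1, map_smul, smul_eq_mul, mul_comm]

/-- the complex extension of a rational functional -/
def ev (ψ : Matrix B B ℚ →ₗ[ℚ] ℚ) (M : Matrix B B ℂ) : ℂ :=
  ∑ i, ∑ j, ((ψ (Matrix.single i j 1) : ℚ) : ℂ) * M i j

theorem lam_ev (ψ : Matrix B B ℚ →ₗ[ℚ] ℚ) (M : Matrix B B ℂ) (lam : ℂ →ₗ[ℚ] ℚ) :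
    lam (ev ψ M) = ψ (M.map lam) := by
  rw [functional_mat, ev, map_sum]
  refine Finset.sum_congr rfl fun i _ => ?_
  rw [map_sum]
  refine Finset.sum_congr rfl fun j _ => ?_
  rw [← Rat.smul_def, map_smul, smul_eq_mul, Matrix.map_apply]

/-- The subspace is defined over the rational numbers. -/
theorem mem_SS_iff (hH : AlgGrp QQ H) {M : Matrix B B ℂ} : M ∈ SS lev H ↔
    ∀ ψ : Matrix B B ℚ →ₗ[ℚ] ℚ, (∀ N ∈ SQ lev H, ψ N = 0) → ev ψ M = 0 := by
  constructor
  · intro hM ψ hψ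
    refine Pool.Agent.W516.DR.eq_zero_of_dual (k := ℚ) fun lam => ?_
    rw [lam_ev]
    exact hψ _ (SS_map hH hM lam)
  · intro h
    refine SS_of_map fun lam => ?_
    by_contra hcon
    have h1 : M.map lam ∉ SQ lev H := hcon
    obtain ⟨ψ, hψ2, hψ1⟩ := Submodule.exists_le_ker_of_notMem h1
    apply hψ2
    rw [← lam_ev, h ψ fun N hN => LinearMap.mem_ker.1 (hψ1 hN), map_zero]

/-- A matrix in terms of its rational components. -/
theorem mat_comp (M : Matrix B B ℂ) : ∃ s : Finset (Basis.ofVectorSpaceIndex ℚ ℂ),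
    M = ∑ b ∈ s, (Basis.ofVectorSpace ℚ ℂ b) •
      cqm (M.map ((Basis.ofVectorSpace ℚ ℂ).coord b)) := by
  obtain ⟨s, hs⟩ := exists_coordsC (fun p : B × B => M p.1 p.2)
  refine ⟨s, ?_⟩
  ext i j
  rw [Matrix.sum_apply]
  have h2 := hs (i, j)
  simp only at h2
  conv_lhs => rw [h2]
  refine Finset.sum_congr rfl fun b _ => ?_
  rw [Matrix.smul_apply, cqm_apply, Matrix.map_apply, smul_eq_mul, mul_comm]

/-- Linear conditions on the subspace can be checked on the rational elements. -/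
theorem forall_SS (hH : AlgGrp QQ H) (T : Matrix B B ℂ →ₗ[ℂ] Matrix B B ℂ)
    (h : ∀ N ∈ SQ lev H, T (cqm N) ∈ SS lev H) : ∀ M ∈ SS lev H, T M ∈ SS lev H := by
  intro M hM
  obtain ⟨s, hs⟩ := mat_comp M
  rw [hs, map_sum]
  refine Submodule.sum_mem _ fun b _ => ?_
  rw [map_smul]
  exact Submodule.smul_mem _ _ (h _ (SS_map hH hM _))

/-- Conjugation as a linear map. -/
def cjg (x y : Matrix B B ℂ) : Matrix B B ℂ →ₗ[ℂ] Matrix B B ℂ where
  toFun M := x * M * y
  map_add' M N := by rw [Matrix.mul_add, Matrix.add_mul]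
  map_smul' c M := by rw [Matrix.mul_smul, Matrix.smul_mul, RingHom.id_apply]

theorem cjg_apply (x y M : Matrix B B ℂ) : cjg x y M = x * M * y := rfl

/-! ### The conjugation by elements of the group -/

theorem pres_of_mem {F : Subfield ℂ} (hH : AlgGrp F H) {y : Matrix B B ℂ} (hy : y ∈ H) :
    Pres H y := by
  intro d w hw
  rw [pull_mem_Wt]
  intro h hh
  exact hw _ (hH.mul h hh y hy)

/-- The group acts on its Lie algebra. -/
theorem stab_conj {F : Subfield ℂ} (hH : AlgGrp F H) {y y' : Matrix B B ℂ} (hy : y ∈ H)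
    (h1 : y * y' = 1) (h2 : y' * y = 1) {k : ℕ} {X : Matrix B B ℂ} (hX : Stab H k X) :
    Stab H k (y * X * y') := by
  have hy' : y' ∈ H := by
    obtain ⟨z, hz, hz1, hz2⟩ := hH.inv y hy
    have h3 : z = y' := by
      calc z = z * (y * y') := by rw [h1, Matrix.mul_one]
        _ = y' := by rw [← Matrix.mul_assoc, hz2, Matrix.one_mul]
    rwa [← h3]
  intro w hw
  have h3 : pull (MM y) (pull (MM y') w) = w := by
    rw [pull_pull, MM_mul_MM, h1]
    have h4 : MM (1 : Matrix B B ℂ) = 1 := by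
      have h5 := MM_eq (0 : Matrix B B ℂ) 0
      rwa [smul_zero, add_zero, zero_smul, add_zero] at h5
    rw [h4, pull_one]
  have h4 : act (LL (y * X * y')) (pull (MM y) (pull (MM y') w)) =
      pull (MM y) (act (LL X) (pull (MM y') w)) := by
    refine act_pull ?_ _
    rw [MM_mul_LL, LL_mul_MM, Matrix.mul_assoc, h2, Matrix.mul_one]
  rw [h3] at h4
  rw [h4]
  exact pres_of_mem hH hy k _ (hX _ (pres_of_mem hH hy' k w hw))

end Pool.Agent.N208.UR
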